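import Mathlib
import Pool.Agent.Lib.FGF.Main
import Pool.Agent.Lib.FracGS.Dual

/-!
# The fractional Gyarfas-Sumner conjecture
-/

set_option autoImplicit false

namespace Pool.Agent.Results.MP_763321_co.FractionalForests

open Classical in
/-- `c` is a fractional colouring of `G`: nonnegative weights on the stable sets of `G` such that
every vertex lies in stable sets of total weight at least one. -/
def IsFractionalColouring {V : Type} [Fintype V] (G : SimpleGraph V) (c : Finset V → ℝ) : Prop :=
  (∀ S, 0 ≤ c S) ∧ (∀ S, c S ≠ 0 → ∀ u ∈ S, ∀ v ∈ S, ¬ G.Adj u v) ∧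
    ∀ v, 1 ≤ ∑ S ∈ (Finset.univ : Finset (Finset V)).filter (fun S => v ∈ S), c S

/-- The fractional chromatic number: the least total weight of a fractional colouring. -/
noncomputable def fractionalChromaticNumber {V : Type} [Fintype V] (G : SimpleGraph V) : ℝ :=
  sInf {t | ∃ c : Finset V → ℝ, IsFractionalColouring G c ∧ t = ∑ S, c S}

/-- For every finite forest `F` and every `k` there is `C` such that every finite graph with no
clique of size `k` and no induced copy of `F` has fractional chromatic number at most `C`. -/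
theorem result : ∀ (W : Type) [Fintype W] (F : SimpleGraph W), F.IsAcyclic → ∀ k : ℕ,
    ∃ C : ℝ, ∀ (V : Type) [Fintype V] (G : SimpleGraph V), G.CliqueFree k →
      IsEmpty (SimpleGraph.Embedding F G) → fractionalChromaticNumber G ≤ C := by
  intro W _ F hF k
  obtain ⟨C, hC, h⟩ := Pool.Agent.Lib.FGF.fractional W F hF k
  refine ⟨C, ?_⟩
  intro V _ G hG hF'
  obtain ⟨c, h1, h2, h3, h4⟩ := Pool.Agent.Lib.FracGS.exists_fractional G C (by linarith)
    (fun μ hμ => by
      obtain ⟨I, -, hI, hle⟩ := h V G hG hF' μ hμ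
      exact ⟨I, hI, hle⟩)
  refine csInf_le ?_ ⟨c, ⟨h1, h2, ?_⟩, h4.symm⟩
  · refine ⟨0, ?_⟩
    rintro t ⟨c, hc, rfl⟩
    exact Finset.sum_nonneg fun S _ => hc.1 S
  · intro v
    exact h3 v

end Pool.Agent.Results.MP_763321_co.FractionalForests
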